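import Pool.Agent.helper84.WZ.SpecB

/-!
# Project wz, module CA: concatenation
-/

set_option autoImplicit false
set_option linter.all false

namespace WZ

open Filter

/-- the monoid of tuples -/
abbrev CA_N (k : ℕ) := W × (Fin k → TW)

/-- the diagonal -/
noncomputable def CA_D (k : ℕ) : W →* CA_N k :=
  (MonoidHom.id W).prod (Pi.monoidHom fun _ => emb)

/-- one component replaced -/
noncomputable def CA_E (k : ℕ) (j : Fin k) : TW →* CA_N k :=
  ke.prod (Pi.monoidHom fun i => if i = j then MonoidHom.id TW else emb.comp ke)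

/-- the components -/
def CA_p (k : ℕ) (i : Fin k) : CA_N k →* TW :=
  (Pi.evalMonoidHom (fun _ : Fin k => TW) i).comp (MonoidHom.snd W (Fin k → TW))

def CA_f (k : ℕ) : CA_N k →* W := MonoidHom.fst W (Fin k → TW)

/-- the induction statement -/
structure CA_Good {k : ℕ} (F : Fin k → W → ℤ × ℤ → W → ℤ × ℤ) (e y : Ultrafilter W)
    (J : Finset (Fin k)) (Θ : Ultrafilter (CA_N k)) : Prop where
  a : Θ.map (CA_f k) = y
  b : ∀ᶠ t in (Θ : Filter (CA_N k)), ∀ i, ke (t.2 i) = t.1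
  c : ∀ i ∈ J, (Θ.map (CA_p k i)).map mo = e ∧ Leg (F i) e (Θ.map (CA_p k i))
  d : ∀ i, i ∉ J → Θ.map (CA_p k i) = y.map emb

theorem CA_map_map {A B C : Type} (p : Ultrafilter A) (f : A → B) (g : B → C) :
    (p.map f).map g = p.map (g ∘ f) := Ultrafilter.map_map p f g

theorem CA_start (hEM : EM_stmt) {k : ℕ} (F : Fin k → W → ℤ × ℤ → W → ℤ × ℤ)
    (e y : Ultrafilter W) : CA_Good F e y ∅ (y.map (CA_D k)) := by
  refine ⟨?_, ?_, ?_, ?_⟩
  · rw [CA_map_map]
    have : (⇑(CA_f k) ∘ ⇑(CA_D k)) = id := rfl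
    rw [this, Ultrafilter.map_id]
  · have : ∀ᶠ w in (y : Filter W), ∀ i, ke (((CA_D k) w).2 i) = ((CA_D k) w).1 :=
      Eventually.of_forall fun w i => hEM.2.1 w
    exact this
  · intro i hi
    exact absurd hi (Finset.notMem_empty i)
  · intro i _
    rw [CA_map_map]
    rfl

theorem CA_step (hUM : UM_stmt) (hEM : EM_stmt) (hRM : RM_stmt) {k : ℕ}
    (F : Fin k → W → ℤ × ℤ → W → ℤ × ℤ) (e y y' : Ultrafilter W) (he : MinE e) (hy : InG e y)
    (hy' : InG e y') (h1 : y * y' = e) (h2 : y' * y = e) (j : Fin k) (p : Ultrafilter TW)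
    (hp1 : p.map mo = e) (hp2 : p.map ke = y) (hp3 : Leg (F j) e p) (J : Finset (Fin k))
    (hj : j ∉ J) (Θ : Ultrafilter (CA_N k)) (hΘ : CA_Good F e y J Θ) :
    CA_Good F e y (insert j J) (Θ * (y'.map (CA_D k) * p.map (CA_E k j))) := by
  have hmul := hUM.1
  have hmo : ∀ q : Ultrafilter W, (q.map emb).map mo = q := by
    intro q
    rw [CA_map_map]
    have : (⇑mo ∘ ⇑emb) = id := funext fun w => hEM.1 w
    rw [this, Ultrafilter.map_id]
  have hleg := (hRM (F j) e he).2.1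
  -- components of the last two factors
  have hDp : ∀ i, (y'.map (CA_D k)).map (CA_p k i) = y'.map emb := by
    intro i
    rw [CA_map_map]
    rfl
  have hEj : (p.map (CA_E k j)).map (CA_p k j) = p := by
    rw [CA_map_map]
    have : (⇑(CA_p k j) ∘ ⇑(CA_E k j)) = id := by
      funext P
      show (if j = j then MonoidHom.id TW else emb.comp ke) P = P
      rw [if_pos rfl]
      rfl
    rw [this, Ultrafilter.map_id]
  have hEi : ∀ i, i ≠ j → (p.map (CA_E k j)).map (CA_p k i) = y.map emb := by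
    intro i hi
    rw [CA_map_map, ← hp2, CA_map_map]
    congr 1
    funext P
    show (if i = j then MonoidHom.id TW else emb.comp ke) P = emb (ke P)
    rw [if_neg hi]
    rfl
  have hyy : ∀ q q' : Ultrafilter W, q.map emb * q'.map emb = (q * q').map emb :=
    fun q q' => (hmul W TW emb q q').symm
  refine ⟨?_, ?_, ?_, ?_⟩
  · rw [hmul _ _ (CA_f k), hmul _ _ (CA_f k), hΘ.a]
    have e1 : (y'.map (CA_D k)).map (CA_f k) = y' := by
      rw [CA_map_map]
      have : (⇑(CA_f k) ∘ ⇑(CA_D k)) = id := rfl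
      rw [this, Ultrafilter.map_id]
    have e2 : (p.map (CA_E k j)).map (CA_f k) = y := by
      rw [CA_map_map, ← hp2]
      rfl
    rw [e1, e2, h2, hy.2.1]
  · have e1 : ∀ᶠ t in ((y'.map (CA_D k) : Ultrafilter (CA_N k)) : Filter (CA_N k)),
        ∀ i, ke (t.2 i) = t.1 := by
      have : ∀ᶠ w in (y' : Filter W), ∀ i, ke (((CA_D k) w).2 i) = ((CA_D k) w).1 :=
        Eventually.of_forall fun w i => hEM.2.1 w
      exact this
    have e2 : ∀ᶠ t in ((p.map (CA_E k j) : Ultrafilter (CA_N k)) : Filter (CA_N k)),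
        ∀ i, ke (t.2 i) = t.1 := by
      have : ∀ᶠ P in (p : Filter TW), ∀ i, ke (((CA_E k j) P).2 i) = ((CA_E k j) P).1 := by
        refine Eventually.of_forall fun P i => ?_
        show ke ((if i = j then MonoidHom.id TW else emb.comp ke) P) = ke P
        by_cases hi : i = j
        · rw [if_pos hi]
          rfl
        · rw [if_neg hi]
          exact hEM.2.1 (ke P)
      exact this
    rw [Ultrafilter.eventually_mul]
    filter_upwards [hΘ.b] with t ht
    rw [Ultrafilter.eventually_mul]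
    filter_upwards [e1] with t' ht'
    filter_upwards [e2] with t'' ht'' i
    show ke (t.2 i * (t'.2 i * t''.2 i)) = t.1 * (t'.1 * t''.1)
    rw [map_mul, map_mul, ht i, ht' i, ht'' i]
  · intro i hi
    rw [hmul _ _ (CA_p k i), hmul _ _ (CA_p k i), hDp i]
    rcases Finset.mem_insert.1 hi with rfl | hi2
    · rw [hEj, hΘ.d i hj, ← mul_assoc, hyy, h1]
      refine ⟨?_, ?_⟩
      · rw [hmul TW W mo, hmo, hp1, he.idem]
      · exact (hRM (F i) e he).1 _ _ (hmo e) hp1 ((hRM (F i) e he).2.1 e) hp3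
    · have hij : i ≠ j := by
        rintro rfl
        exact hj hi2
      obtain ⟨c1, c2⟩ := hΘ.c i hi2
      rw [hEi i hij, hyy, h2]
      refine ⟨?_, ?_⟩
      · rw [hmul TW W mo, hmo, c1, he.idem]
      · exact (hRM (F i) e he).1 _ _ c1 (hmo e) c2 ((hRM (F i) e he).2.1 e)
  · intro i hi
    have hij : i ≠ j := by
      rintro rfl
      exact hi (Finset.mem_insert_self _ _)
    have hiJ : i ∉ J := fun h => hi (Finset.mem_insert_of_mem h)
    rw [hmul _ _ (CA_p k i), hmul _ _ (CA_p k i), hDp i, hEi i hij, hΘ.d i hiJ, hyy, hyy, h2,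
      hy.2.1]

theorem CA_all (hUM : UM_stmt) (hEM : EM_stmt) (hRM : RM_stmt) {k : ℕ}
    (F : Fin k → W → ℤ × ℤ → W → ℤ × ℤ) (e y y' : Ultrafilter W) (he : MinE e) (hy : InG e y)
    (hy' : InG e y') (h1 : y * y' = e) (h2 : y' * y = e) (hR : ∀ i, Rl (F i) e y)
    (J : Finset (Fin k)) : ∃ Θ, CA_Good F e y J Θ := by
  classical
  induction J using Finset.induction_on with
  | empty => exact ⟨_, CA_start hEM F e y⟩
  | insert j J hj ih =>
    obtain ⟨Θ, hΘ⟩ := ih
    obtain ⟨p, hp1, hp2, hp3⟩ := hR j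
    have := CA_step hUM hEM hRM F e y y' he hy hy' h1 h2 j p hp1 hp2 hp3 J hj Θ hΘ
    exact ⟨_, this⟩

theorem CA (hUM : UM_stmt) (hEM : EM_stmt) (hRM : RM_stmt) : CA_stmt := by
  intro k F e y y' g he hy hy' h1 h2 hg hR
  obtain ⟨Θ, hΘ⟩ := CA_all hUM hEM hRM F e y y' he hy hy' h1 h2 hR Finset.univ
  have hmul := hUM.1
  -- values
  have v1 : ∀ᶠ t in (Θ : Filter (CA_N k)), val 1 t.1 = g := by
    have : ∀ᶠ w in ((Θ.map (CA_f k) : Ultrafilter W) : Filter W), val 1 w = g := by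
      rw [hΘ.a]
      exact hg
    exact this
  have v2 : ∀ i, ∀ᶠ t in (Θ : Filter (CA_N k)), val 1 (mo (t.2 i)) = 1 := by
    intro i
    have h3 := (hΘ.c i (Finset.mem_univ i)).1
    have : ∀ᶠ w in (((Θ.map (CA_p k i)).map mo : Ultrafilter W) : Filter W), val 1 w = 1 := by
      rw [h3]
      exact he.val
    exact this
  have v3 : ∀ i, ∀ᶠ x in (e : Filter W), ∀ᶠ t in (Θ : Filter (CA_N k)),
      ∀ᶠ z in (e : Filter W), LegalIn (F i) x (t.2 i) z := by
    intro i
    exact (hΘ.c i (Finset.mem_univ i)).2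
  have v4 : ∀ᶠ x in (e : Filter W), val 1 x = 1 := he.val
  obtain ⟨x, hx, hx1⟩ := ((eventually_all.2 v3).and v4).exists
  obtain ⟨t, ⟨⟨ht, ht1⟩, ht2⟩, ht3⟩ := ((((eventually_all.2 hx).and v1).and
    (eventually_all.2 v2)).and hΘ.b).exists
  obtain ⟨z, hz, hz1⟩ := ((eventually_all.2 ht).and v4).exists
  refine ⟨x * t.1 * z, ?_, ?_⟩
  · rw [map_mul, map_mul, hx1, ht1, hz1, one_mul, mul_one]
  · intro i
    refine ⟨emb x * t.2 i * emb z, ?_, ?_, ?_⟩
    · rw [map_mul, map_mul, hEM.2.1, hEM.2.1, ht3 i]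
    · rw [map_mul, map_mul, map_mul, map_mul, hEM.1, hEM.1, hx1, ht2 i, hz1, one_mul, mul_one]
    · intro l v v' r hP
      rcases hEM.2.2.2.1 _ _ _ _ _ _ hP with ⟨r', hr1, hr2⟩ | ⟨l', hl1, -⟩
      · rcases hEM.2.2.2.1 _ _ _ _ _ _ hr1 with ⟨r'', hr3, -⟩ | ⟨l', hl1, hl2⟩
        · exact absurd hr3 (hEM.2.2.1 x l r'' v v')
        · obtain ⟨s, hs⟩ := hz i l' v v' r' hl1
          refine ⟨s, ?_⟩
          rw [hl2, hr2, map_mul, map_mul, hEM.1, hEM.1]
          exact hs
      · exact absurd hl1 (hEM.2.2.1 z l' r v v')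

end WZ
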