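import Pool.Agent.helper84.WZ.SpecB

/-!
# Project wz, module QG: the generator
-/

set_option autoImplicit false
set_option linter.all false

namespace WZ

open Filter

theorem QG_one (a b v v' : ℤ × ℤ) (l r : TW)
    (h : FreeMonoid.of (PL.m a b) = l * FreeMonoid.of (PL.m v v') * r) :
    l = 1 ∧ r = 1 ∧ v = a ∧ v' = b := by
  have h1 := congrArg FreeMonoid.toList h
  rw [FreeMonoid.toList_mul, FreeMonoid.toList_mul, FreeMonoid.toList_of,
    FreeMonoid.toList_of] at h1
  have h2 := congrArg List.length h1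
  rw [List.length_append, List.length_append, List.length_singleton, List.length_singleton] at h2
  have h3 : FreeMonoid.toList l = [] := List.length_eq_zero_iff.1 (by omega)
  have h4 : FreeMonoid.toList r = [] := List.length_eq_zero_iff.1 (by omega)
  rw [h3, h4] at h1
  simp only [List.nil_append, List.append_nil, List.cons.injEq, PL.m.injEq, and_true] at h1
  exact ⟨FreeMonoid.toList.injective h3, FreeMonoid.toList.injective h4, h1.1.symm, h1.2.symm⟩

theorem QG (hUM : UM_stmt) (hEM : EM_stmt) : QG_stmt := by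
  intro e q u d he hq hq1 hq2 t
  obtain ⟨hmap, -, -, -, -, -, -⟩ := hUM
  obtain ⟨hme, hke, hnm, hsplit, -, -⟩ := hEM
  have hmoemb : ∀ p : Ultrafilter W, (p.map emb).map mo = p := by
    intro p
    have h1 : (p.map emb).map mo = p.map (mo ∘ emb) := Ultrafilter.map_map p emb mo
    rw [h1]
    have : (⇑mo ∘ ⇑emb) = id := funext fun w => hme w
    rw [this, Ultrafilter.map_id]
  have hkeemb : ∀ p : Ultrafilter W, (p.map emb).map ke = p := by
    intro p
    have h1 : (p.map emb).map ke = p.map (ke ∘ emb) := Ultrafilter.map_map p emb ke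
    rw [h1]
    have : (⇑ke ∘ ⇑emb) = id := funext fun w => hke w
    rw [this, Ultrafilter.map_id]
  have hmm : (pure (FreeMonoid.of (PL.m u (u + t • d))) : Ultrafilter TW).map mo =
      pure (FreeMonoid.of (Lt.k u)) := by
    rw [Ultrafilter.map_pure]
    rfl
  have hkm : (pure (FreeMonoid.of (PL.m u (u + t • d))) : Ultrafilter TW).map ke =
      pure (FreeMonoid.of (Lt.k (u + t • d))) := by
    rw [Ultrafilter.map_pure]
    rfl
  refine ⟨e.map emb * (pure (FreeMonoid.of (PL.m u (u + t • d))) * (e.map emb * q.map emb)),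
    ⟨?_, ?_⟩, ?_⟩
  · rw [hmap TW W mo, hmap TW W mo, hmap TW W mo, hmoemb, hmoemb, hmm]
    have h0 := hq2
    unfold PP at h0
    simp only [mul_assoc] at h0
    exact h0
  · intro A hA
    have h1 : ∀ᶠ x in (e : Filter W), ∀ᶠ y in (e : Filter W), ∀ᶠ z in (q : Filter W),
        (x, y * z) ∈ A := by
      have h2 : ∀ᶠ x in (e : Filter W), ∀ᶠ r in ((e * q : Ultrafilter W) : Filter W),
          (x, r) ∈ A := by
        rw [hq.1]
        exact hA
      exact h2
    have h3 : ∀ᶠ x in (e : Filter W), ∀ᶠ y in (e : Filter W), ∀ᶠ z in (q : Filter W),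
        ∀ (l : TW) (v v' : ℤ × ℤ) (r : TW),
          emb x * (FreeMonoid.of (PL.m u (u + t • d)) * (emb y * emb z)) =
            l * FreeMonoid.of (PL.m v v') * r →
          v = u ∧ (∃ t : ℤ, v' = u + t • d) ∧ (mo l, mo r) ∈ A := by
      filter_upwards [h1] with x hx
      filter_upwards [hx] with y hy
      filter_upwards [hy] with z hz
      intro l v v' r hP
      rcases hsplit _ _ _ _ _ _ hP with ⟨r', hr1, -⟩ | ⟨l', hl1, hl2⟩
      · exact absurd hr1 (hnm x l r' v v')
      · rcases hsplit _ _ _ _ _ _ hl1 with ⟨r', hr1, hr2⟩ | ⟨l'', hl3, -⟩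
        · obtain ⟨a1, a2, a3, a4⟩ := QG_one _ _ _ _ _ _ hr1
          refine ⟨a3, ⟨t, a4⟩, ?_⟩
          rw [hl2, hr2, a1, a2, mul_one, one_mul, map_mul, hme, hme, hme]
          exact hz
        · exfalso
          rcases hsplit _ _ _ _ _ _ hl3 with ⟨r', hr1, -⟩ | ⟨l', hl1, -⟩
          · exact hnm y _ r' v v' hr1
          · exact hnm z _ r v v' hl1
    exact h3
  · rw [hmap TW W ke, hmap TW W ke, hmap TW W ke, hkeemb, hkeemb, hkm, PP]
    simp only [mul_assoc]

end WZ
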