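import Pool.Agent.helper84.WZ.SpecB

/-!
# Project wz, module QI: the inverse of the generator
-/

set_option autoImplicit false
set_option linter.all false

namespace WZ

open Filter

theorem QI_closed : IsClosed {p : Ultrafilter TW | p.map ke ∈ UV 1} :=
  ultrafilter_isClosed_basic {P : TW | val 1 (ke P) = 1}

theorem QI (hUM : UM_stmt) (hEM : EM_stmt) (hMI : MI_stmt) (hGI : GI_stmt) (hQM : QM_stmt)
    (hQG : QG_stmt) : QI_stmt := by
  intro e q u d he hq hq1 hq2 t V' hV' hV1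
  obtain ⟨hmap, hpure, hUV, hpv, huniq, -, -⟩ := hUM
  obtain ⟨hinv, hidem, hmul, hcon, hee⟩ := hGI e he
  have hqe : q * e = q := hq.2.1
  obtain ⟨m1, m2, m3⟩ := hQM e q u d he hqe
  -- the images of `emb`
  have hke : (e.map emb).map ke = e := by
    have h1 : (e.map emb).map ke = e.map (ke ∘ emb) := Ultrafilter.map_map e emb ke
    rw [h1]
    have : (⇑ke ∘ ⇑emb) = id := funext fun w => hEM.2.1 w
    rw [this, Ultrafilter.map_id]
  -- the closed semigroup
  obtain ⟨ρ, ⟨hρQ, hρ1⟩, hρρ, hρe, hρm⟩ := hMI (Ultrafilter TW)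
    (fun r => Ultrafilter.continuous_mul_left r)
    {p | p ∈ QQ e q u d ∧ p.map ke ∈ UV 1} (e.map emb) (m1.inter QI_closed)
    (fun p hp p' hp' => ⟨m3 p hp.1 p' hp'.1, by
      have := hUV 1 1 _ _ hp.2 hp'.2
      rw [hmap TW W ke, ← mul_one (1 : DZ.G)]
      exact this⟩)
    ⟨m2, by rw [hke]; exact he.val⟩
    (by rw [← hmap W TW emb, he.idem])
  -- values
  obtain ⟨gq, hgq⟩ := hq.2.2
  have hPP : ∀ v : ℤ × ℤ, PP e v ∈ UV (DZ.zz v) := by
    intro v
    have h1 := hUV _ _ _ _ (hUV _ _ _ _ he.val (hpv (FreeMonoid.of (Lt.k v)))) he.val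
    have h2 : (1 : DZ.G) * val 1 (FreeMonoid.of (Lt.k v)) * 1 = DZ.zz v := by
      rw [one_mul, mul_one]
      show FreeMonoid.lift (vl 1) (FreeMonoid.of (Lt.k v)) = DZ.zz v
      rw [FreeMonoid.lift_eval_of]
      show DZ.zz ((1 : ℤ) • v) = DZ.zz v
      rw [one_smul]
    rw [h2] at h1
    exact h1
  have hgq' : gq = (DZ.zz u)⁻¹ := by
    have h1 := hUV _ _ _ _ (hPP u) hgq
    rw [hq2] at h1
    exact (inv_eq_of_mul_eq_one_right (huniq _ _ _ h1 he.val)).symm
  rw [hgq'] at hgq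
  -- the generators
  obtain ⟨g, hg, hgk⟩ := hQG e q u d he hq hq1 hq2 t
  obtain ⟨g', hg', hgk'⟩ := hQG e q u d he hq hq1 hq2 (-t)
  have hval : (g' * g).map ke ∈ UV 1 := by
    rw [hmap TW W ke, hgk, hgk']
    have h1 := hUV _ _ _ _ (hUV _ _ _ _ (hPP (u + (-t) • d)) hgq)
      (hUV _ _ _ _ (hPP (u + t • d)) hgq)
    have h2 : DZ.zz (u + (-t) • d) * (DZ.zz u)⁻¹ * (DZ.zz (u + t • d) * (DZ.zz u)⁻¹) = 1 := by
      have h3 : ∀ a b : ℤ × ℤ, DZ.zz (a + b) = DZ.zz a * DZ.zz b := by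
        intro a b
        exact DZ.zz_add a b
      rw [h3, h3]
      have h4 : DZ.zz u * DZ.zz ((-t) • d) = DZ.zz ((-t) • d) * DZ.zz u := by
        rw [← h3, ← h3, add_comm]
      have h5 : DZ.zz u * DZ.zz (t • d) = DZ.zz (t • d) * DZ.zz u := by
        rw [← h3, ← h3, add_comm]
      rw [h4, h5, mul_inv_cancel_right, mul_inv_cancel_right, ← h3, neg_smul, neg_add_cancel]
      have h6 := h3 0 0
      rw [add_zero] at h6
      exact (mul_eq_left.1 h6.symm)
    rw [h2] at h1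
    exact h1
  obtain ⟨x, ⟨hx1, hx2⟩, hx3⟩ := hρm (g' * g) ⟨m3 _ hg' _ hg, hval⟩
  -- the idempotent
  have hρk : ρ.map ke * e = ρ.map ke := by
    have h1 : (ρ * e.map emb).map ke = ρ.map ke := by rw [hρe]
    rw [hmap TW W ke, hke] at h1
    exact h1
  have hρk2 : ρ.map ke * ρ.map ke = ρ.map ke := by
    rw [← hmap TW W ke, hρρ]
  have hε : e * ρ.map ke = e := by
    refine hidem (e * ρ.map ke) ⟨?_, ?_, ?_⟩ ?_
    · rw [← mul_assoc, he.idem]
    · rw [mul_assoc, hρk]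
    · refine ⟨1, ?_⟩
      have := hUV _ _ _ _ he.val hρ1
      rw [mul_one] at this
      exact this
    · rw [mul_assoc, ← mul_assoc (ρ.map ke) e, hρk, hρk2]
  -- the equation
  set V := PP e (u + t • d) * q with hV
  set V'' := PP e (u + (-t) • d) * q with hV''
  have hVe : V * e = V := by rw [hV, mul_assoc, hqe]
  have hV''e : V'' * e = V'' := by rw [hV'', mul_assoc, hqe]
  have hVρ : V * ρ.map ke = V := by
    calc V * ρ.map ke = V * e * ρ.map ke := by rw [hVe]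
      _ = V * (e * ρ.map ke) := mul_assoc _ _ _
      _ = V := by rw [hε, hVe]
  have hxk : x.map ke * (V'' * V) = ρ.map ke := by
    have h1 : (x * (g' * g * ρ)).map ke = ρ.map ke := by rw [hx3]
    rw [hmap TW W ke, hmap TW W ke, hmap TW W ke, hgk, hgk', mul_assoc V'' V, hVρ] at h1
    exact h1
  have heq : e * (x.map ke * V'') * V = e := by
    calc e * (x.map ke * V'') * V = e * (x.map ke * (V'' * V)) := by
          rw [mul_assoc, mul_assoc]
      _ = e := by rw [hxk, hε]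
  -- `V` is in the group
  have hVG : InG e V := by
    refine ⟨?_, hVe, ?_⟩
    · rw [hV, PP, ← mul_assoc, ← mul_assoc, ← mul_assoc, he.idem]
    · exact ⟨_, hUV _ _ _ _ (hPP (u + t • d)) hgq⟩
  obtain ⟨gV, hgV⟩ := hVG.2.2
  obtain ⟨q₂, hq₂G, -, hq₂1, hq₂2⟩ := hinv V gV hVG hgV
  have hVV : V' = q₂ := by
    calc V' = V' * e := hV'.2.1.symm
      _ = V' * (V * q₂) := by rw [hq₂2]
      _ = V' * V * q₂ := (mul_assoc _ _ _).symm
      _ = q₂ := by rw [hV1, hq₂G.1]
  have hfin : e * (x.map ke * V'') = V' := by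
    rw [hVV]
    calc e * (x.map ke * V'') = e * (x.map ke * (V'' * e)) := by rw [hV''e]
      _ = e * (x.map ke * V'') * e := by simp only [mul_assoc]
      _ = e * (x.map ke * V'') * V * q₂ := by
        rw [mul_assoc (e * (x.map ke * V'')) V q₂, hq₂2]
      _ = q₂ := by rw [heq, hq₂G.1]
  refine ⟨e.map emb * (x * g'), m3 _ m2 _ (m3 _ hx1 _ hg'), ?_⟩
  rw [hmap TW W ke, hmap TW W ke, hke, hgk']
  exact hfin

end WZ
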