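import Pool.Agent.helper84.WZ.SpecB

/-!
# Project wz, module LG: conjugation by a group element with the right label
-/

set_option autoImplicit false
set_option linter.all false

namespace WZ

open Filter

theorem LG (hUM : UM_stmt) (hEM : EM_stmt) : LG_stmt := by
  intro F e q u d he hqe g g' hg hg' hgg hlab p hp
  obtain ⟨hmap, -, -, -, -, -, -⟩ := hUM
  obtain ⟨hme, hke, hnm, hsplit, hfin, -⟩ := hEM
  have hmoemb : ∀ p : Ultrafilter W, (p.map emb).map mo = p := by
    intro p
    have h1 : (p.map emb).map mo = p.map (mo ∘ emb) := Ultrafilter.map_map p emb mo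
    rw [h1]
    have : (⇑mo ∘ ⇑emb) = id := funext fun w => hme w
    rw [this, Ultrafilter.map_id]
  have hkeemb : ∀ p : Ultrafilter W, (p.map emb).map ke = p := by
    intro p
    have h1 : (p.map emb).map ke = p.map (ke ∘ emb) := Ultrafilter.map_map p emb ke
    rw [h1]
    have : (⇑ke ∘ ⇑emb) = id := funext fun w => hke w
    rw [this, Ultrafilter.map_id]
  refine ⟨g.map emb * (p * g'.map emb), ?_, ?_, ?_⟩
  · rw [hmap TW W mo, hmap TW W mo, hmoemb, hmoemb, hp.1, hg'.1, hgg]
  · rw [hmap TW W ke, hmap TW W ke, hkeemb, hkeemb, mul_assoc]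
  · -- the label
    have hl : ∀ᶠ x in (e : Filter W), ∀ᶠ y in (g : Filter W), ∀ᶠ l in (e : Filter W),
        ∀ᶠ r in (q : Filter W), ∀ᶠ y' in (g' : Filter W), ∀ᶠ z in (e : Filter W),
          F (x * y * l) u (r * y' * z) = d := by
      have h1 : g = e * g * e := by rw [hg.1, hg.2.1]
      have h2 : q * g' = q * g' * e := by rw [mul_assoc, hg'.2.1]
      rw [h2] at hlab
      have h3 : ∀ᶠ x in ((e * g * e : Ultrafilter W) : Filter W),
          ∀ᶠ r in ((q * g' * e : Ultrafilter W) : Filter W), F x u r = d := by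
        rw [← h1]
        exact hlab
      have h4 : ∀ a : W, (∀ᶠ r in ((q * g' * e : Ultrafilter W) : Filter W), F a u r = d) ↔
          ∀ᶠ r in (q : Filter W), ∀ᶠ y' in (g' : Filter W), ∀ᶠ z in (e : Filter W),
            F a u (r * y' * z) = d := fun a => Iff.rfl
      simp only [h4] at h3
      exact h3
    have hLeg : ∀ᶠ x in (e : Filter W), ∀ᶠ y in (g : Filter W), ∀ᶠ Q in (p : Filter TW),
        ∀ᶠ y' in (g' : Filter W), ∀ᶠ z in (e : Filter W),
          LegalIn F x (emb y * (Q * emb y')) z := by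
      filter_upwards [hl] with x hx
      filter_upwards [hx] with y hy
      have h1 := hp.2 {lr : W × W | ∀ᶠ y' in (g' : Filter W), ∀ᶠ z in (e : Filter W),
        F (x * y * lr.1) u (lr.2 * y' * z) = d} hy
      filter_upwards [h1] with Q hQ
      have h2 := hfin Q (g' : Filter W)
        (fun l v v' r y' => ∀ᶠ z in (e : Filter W), F (x * y * mo l) u (mo r * y' * z) = d)
        (fun l v v' r hP => (hQ l v v' r hP).2.2)
      filter_upwards [h2] with y' hy'
      have h3 := hfin Q (e : Filter W)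
        (fun l v v' r z => F (x * y * mo l) u (mo r * y' * z) = d) hy'
      filter_upwards [h3] with z hz
      intro l v v' r hP
      rcases hsplit _ _ _ _ _ _ hP with ⟨r', hr1, -⟩ | ⟨l', hl1, hl2⟩
      · exact absurd hr1 (hnm y l r' v v')
      · rcases hsplit _ _ _ _ _ _ hl1 with ⟨r', hr1, hr2⟩ | ⟨l'', hl3, -⟩
        · obtain ⟨hv, ⟨t, ht⟩, -⟩ := hQ l' v v' r' hr1
          have hF := hz l' v v' r' hr1
          refine ⟨t, ?_⟩
          rw [hl2, hr2, map_mul, map_mul, hme, hme, hv, ← mul_assoc x y, hF, ht]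
        · exact absurd hl3 (hnm y' l'' r v v')
    exact hLeg

end WZ
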